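import Pool.Agent.Lib.MP_b87f19_lc.Main

namespace Pool.Agent.Results.MP_b87f19_lc.Line

open Set Filter MeasureTheory Topology Pool.Agent.Lib.B87

/-- The gauges for which every subset of the line of positive `H^f` measure has a subset of finite
positive measure are exactly those for which `f t / t` does not tend to infinity; so the statement
for all gauges fails. -/
theorem result :
    (∀ f : ℝ → ℝ, Gauge f →
      (SubFin f univ ↔ ¬ Tendsto (fun t => f t / t) (𝓝[>] 0) atTop)) ∧
    ∃ (f : ℝ → ℝ) (A : Set ℝ), Gauge f ∧ 0 < H f A ∧ ∀ A₀ ⊆ A, H f A₀ = 0 ∨ H f A₀ = ⊤ := by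
  have k : ∀ f : ℝ → ℝ, Gauge f →
      (SubFin f univ ↔ ¬ Tendsto (fun t => f t / t) (𝓝[>] 0) atTop) := fun f hf =>
    ((hf.tfae MeasurableSet.univ.analyticSet).out 0 1).trans hf.line
  refine ⟨k, ?_⟩
  have : ¬ SubFin Real.sqrt univ := fun t => (k _ gauge_sqrt.1).1 t gauge_sqrt.2
  unfold SubFin at this
  push Not at this
  obtain ⟨A, -, h1, h2⟩ := this
  exact ⟨_, A, gauge_sqrt.1, h1, fun B hB => (zero_le (a := H Real.sqrt B)).eq_or_lt.imp Eq.symm
    fun t => top_le_iff.1 (h2 B hB t)⟩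

end Pool.Agent.Results.MP_b87f19_lc.Line
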