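import Pool.Agent.Lib.MP_b87f19_lc.Main

namespace Pool.Agent.Results.MP_b87f19_lc.SigmaFinite

open MeasureTheory Pool.Agent.Lib.B87

/-- For a gauge `f` and an analytic `X ⊆ ℝ`, every subset of `X` of positive `H^f` measure has a
subset of finite positive measure iff `X` has σ-finite measure iff all universally null subsets of
`X` are `H^f`-null. -/
theorem result (f : ℝ → ℝ) (hf : Gauge f) (X : Set ℝ) (hX : AnalyticSet X) :
    (SubFin f X ↔ SigFin f X) ∧ (SigFin f X ↔ ∀ A ⊆ X, UNull A → H f A = 0) :=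
  ⟨(hf.tfae hX).out 0 1, (hf.tfae hX).out 1 2⟩

end Pool.Agent.Results.MP_b87f19_lc.SigmaFinite
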